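import Mathlib

/-!
# Log-concavity of the numbers of common non-trivial partitions fails for two trees of size 12

The two trees are given by parent maps on the vertices `0, …, 21` (`0, …, 11` are the leaves, the
root is the leaf `11`). The sequence of the pair is `0,0,0,1,8,28,56,83,126,106,0,0`, and
`83² < 56 · 126`.
-/

set_option autoImplicit false
set_option linter.unusedVariables false

namespace Pool.Agent.Results.MP_8b9f13_co.NotLogConcave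

/-- A semilabelled binary tree of size `n`: a finite tree all of whose vertices have degree `1` or
`3`, with an injective labelling `leaf` of its degree-one vertices by `Fin n` that hits all of
them. -/
structure SBTree (n : ℕ) where
  /-- the vertices -/
  V : Type
  finV : Finite V
  /-- the tree -/
  G : SimpleGraph V
  isTree : G.IsTree
  deg : ∀ v, (G.neighborSet v).ncard = 1 ∨ (G.neighborSet v).ncard = 3
  /-- the labelled leaves -/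
  leaf : Fin n → V
  leaf_inj : Function.Injective leaf
  leaf_iff : ∀ v, (G.neighborSet v).ncard = 1 ↔ ∃ i, leaf i = v

/-- `Conv T`: the set of partitions (as equivalence relations) of `Fin n` obtained by deleting a set
`S` of edges of `T` and putting two labels in one class when their leaves are still connected. -/
def Conv {n : ℕ} (T : SBTree n) : Set (Setoid (Fin n)) :=
  {r | ∃ S : Set (Sym2 T.V), ∀ i j, r i j ↔ (T.G.deleteEdges S).Reachable (T.leaf i) (T.leaf j)}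

/-- `r` has at least two classes of size at least `2`. -/
def Nontriv {n : ℕ} (r : Setoid (Fin n)) : Prop :=
  ∃ i i' j j' : Fin n, i ≠ i' ∧ r i i' ∧ j ≠ j' ∧ r j j' ∧ ¬ r i j

/-- `a T F k`: the number of non-trivial partitions with exactly `k` classes that belong to both
`T` and `F`. -/
noncomputable def a {n : ℕ} (T F : SBTree n) (k : ℕ) : ℕ :=
  {r : Setoid (Fin n) | r ∈ Conv T ∧ r ∈ Conv F ∧ Nat.card (Quotient r) = k ∧ Nontriv r}.ncard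

/-! ### Trees from parent maps -/

def gr (par : Fin 22 → Fin 22) : SimpleGraph (Fin 22) := SimpleGraph.fromRel (fun x y => par x = y)

theorem gr_adj {par : Fin 22 → Fin 22} {x y : Fin 22} :
    (gr par).Adj x y ↔ x ≠ y ∧ (par x = y ∨ par y = x) := SimpleGraph.fromRel_adj _ _ _

structure Ok (par : Fin 22 → Fin 22) (sg : Fin 22 → ℕ) : Prop where
  root : par 11 = 11
  bit : ∀ x, x ≠ 11 → sg x ^^^ sg (par x) = 2 ^ (x : ℕ)
  up : ∀ x, par^[10] x = 11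
  deg : ∀ v : Fin 22, (Finset.univ.filter (fun y => v ≠ y ∧ (par v = y ∨ par y = v))).card =
    if (v : ℕ) < 12 then 1 else 3

theorem cross {par : Fin 22 → Fin 22} {sg : Fin 22 → ℕ} (ok : Ok par sg)
    {H : SimpleGraph (Fin 22)} (hH : H ≤ gr par) (e : ℕ) {x y : Fin 22} (w : H.Walk x y)
    (hb : (sg x).testBit e ≠ (sg y).testBit e) :
    ∃ z : Fin 22, (z : ℕ) = e ∧ z ≠ 11 ∧ H.Reachable x z ∧ H.Adj z (par z) := by
  induction w with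
  | nil => exact absurd rfl hb
  | @cons u v w hadj p ih =>
    by_cases hc : (sg u).testBit e = (sg v).testBit e
    · obtain ⟨z, h1, h2, h3, h4⟩ := ih (by rw [← hc]; exact hb)
      exact ⟨z, h1, h2, hadj.reachable.trans h3, h4⟩
    · have hx : (sg u ^^^ sg v).testBit e = true := by
        rw [Nat.testBit_xor]
        cases h1 : (sg u).testBit e <;> cases h2 : (sg v).testBit e <;> simp_all
      have hG := gr_adj.1 (hH hadj)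
      obtain ⟨hne, h1 | h1⟩ := hG
      · have hu : u ≠ 11 := by
          intro hu; rw [hu, ok.root] at h1; exact hne (by rw [hu, h1])
        have := ok.bit u hu
        rw [h1] at this
        rw [this, Nat.testBit_two_pow] at hx
        refine ⟨u, by simpa using hx, hu, SimpleGraph.Reachable.refl u, ?_⟩
        rw [h1]; exact hadj
      · have hv : v ≠ 11 := by
          intro hv; rw [hv, ok.root] at h1; exact hne (by rw [hv, h1])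
        have := ok.bit v hv
        rw [h1, Nat.xor_comm] at this
        rw [this, Nat.testBit_two_pow] at hx
        refine ⟨v, by simpa using hx, hv, hadj.reachable, ?_⟩
        rw [h1]; exact hadj.symm

theorem reach_up (par : Fin 22 → Fin 22) (x : Fin 22) (k : ℕ) :
    (gr par).Reachable x (par^[k] x) := by
  induction k with
  | zero => exact SimpleGraph.Reachable.refl x
  | succ k ih =>
    rw [Function.iterate_succ_apply']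
    refine ih.trans ?_
    by_cases h : par^[k] x = par (par^[k] x)
    · rw [← h]
    · exact SimpleGraph.Adj.reachable (gr_adj.2 ⟨h, Or.inl rfl⟩)

theorem gr_tree {par : Fin 22 → Fin 22} {sg : Fin 22 → ℕ} (ok : Ok par sg) :
    (gr par).IsTree := by
  have hr : ∀ x, (gr par).Reachable x 11 := by
    intro x
    have := reach_up par x 10
    rwa [ok.up x] at this
  have hcon : (gr par).Connected := by
    have : Nonempty (Fin 22) := ⟨11⟩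
    exact SimpleGraph.Connected.mk (fun x y => (hr x).trans (hr y).symm)
  have hac : (gr par).IsAcyclic := by
    rw [SimpleGraph.isAcyclic_iff_forall_isBridge]
    intro e
    induction e using Sym2.ind with
    | _ u v =>
      intro he
      rw [SimpleGraph.mem_edgeSet] at he
      rw [SimpleGraph.isBridge_iff]
      -- reduce to `v = par u`
      have key : ∀ u v : Fin 22, u ≠ v → par u = v →
          ¬ ((gr par).deleteEdges {s(u, v)}).Reachable u v := by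
        rintro u v hne hp ⟨w⟩
        have hu : u ≠ 11 := by
          intro hu; rw [hu, ok.root] at hp; exact hne (by rw [hu, hp])
        have hb := ok.bit u hu
        rw [hp] at hb
        have hbit : (sg u).testBit (u : ℕ) ≠ (sg v).testBit (u : ℕ) := by
          intro hh
          have h2 : (sg u ^^^ sg v).testBit (u : ℕ) = true := by
            rw [hb, Nat.testBit_two_pow]; simp
          rw [Nat.testBit_xor, hh] at h2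
          simp at h2
        obtain ⟨z, hz, hz11, -, hadj⟩ := cross ok (SimpleGraph.deleteEdges_le _) (u : ℕ) w hbit
        have hzu : z = u := Fin.ext hz
        rw [hzu, hp, SimpleGraph.deleteEdges_adj] at hadj
        exact hadj.2 rfl
      obtain ⟨hne, h1 | h1⟩ := gr_adj.1 he
      · exact key u v hne h1
      · intro hreach
        rw [Sym2.eq_swap] at hreach
        exact key v u (Ne.symm hne) h1 hreach.symm
  exact ⟨hcon, hac⟩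

theorem deg_eq {par : Fin 22 → Fin 22} {sg : Fin 22 → ℕ} (ok : Ok par sg) (v : Fin 22) :
    ((gr par).neighborSet v).ncard = if (v : ℕ) < 12 then 1 else 3 := by
  have : (gr par).neighborSet v =
      ((Finset.univ.filter (fun y => v ≠ y ∧ (par v = y ∨ par y = v)) : Finset (Fin 22)) :
        Set (Fin 22)) := by
    ext y
    rw [SimpleGraph.mem_neighborSet, gr_adj]
    simp
  rw [this, Set.ncard_coe_finset, ok.deg]

def lf (i : Fin 12) : Fin 22 := Fin.castLE (by norm_num) i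

def mk {par : Fin 22 → Fin 22} {sg : Fin 22 → ℕ} (ok : Ok par sg) : SBTree 12 where
  V := Fin 22
  finV := inferInstance
  G := gr par
  isTree := gr_tree ok
  deg := by
    intro v
    rw [deg_eq ok v]
    split_ifs <;> simp
  leaf := lf
  leaf_inj := by
    intro i j h
    exact Fin.castLE_injective (by norm_num) h
  leaf_iff := by
    intro v
    rw [deg_eq ok v]
    constructor
    · intro h
      have hv : (v : ℕ) < 12 := by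
        by_contra hc
        rw [if_neg hc] at h
        omega
      exact ⟨⟨v, hv⟩, Fin.ext rfl⟩
    · rintro ⟨i, rfl⟩
      have : ((lf i : Fin 22) : ℕ) < 12 := i.isLt
      rw [if_pos this]

/-- classes of a partition of the tree do not cross the same edge. -/
theorem crit {par : Fin 22 → Fin 22} {sg : Fin 22 → ℕ} (ok : Ok par sg) {r : Setoid (Fin 12)}
    (hr : r ∈ Conv (mk ok)) {i i' j j' : Fin 12} {e : ℕ} (h1 : r i i') (h2 : r j j')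
    (hb1 : (sg (lf i) ^^^ sg (lf i')).testBit e = true)
    (hb2 : (sg (lf j) ^^^ sg (lf j')).testBit e = true) : r i j := by
  obtain ⟨S, hS⟩ := hr
  obtain ⟨w1⟩ := (hS i i').1 h1
  obtain ⟨w2⟩ := (hS j j').1 h2
  have d1 : (sg (lf i)).testBit e ≠ (sg (lf i')).testBit e := by
    intro hh; rw [Nat.testBit_xor, hh] at hb1; simp at hb1
  have d2 : (sg (lf j)).testBit e ≠ (sg (lf j')).testBit e := by
    intro hh; rw [Nat.testBit_xor, hh] at hb2; simp at hb2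
  obtain ⟨z, hz, -, hr1, -⟩ := cross ok (SimpleGraph.deleteEdges_le S) e w1 d1
  obtain ⟨z', hz', -, hr2, -⟩ := cross ok (SimpleGraph.deleteEdges_le S) e w2 d2
  have : z = z' := Fin.ext (by omega)
  subst this
  exact (hS i j).2 (hr1.trans hr2.symm)

/-- one step up inside a colour class -/
def upc (par : Fin 22 → Fin 22) (c : Fin 22 → ℕ) (x : Fin 22) : Fin 22 :=
  if c (par x) = c x then par x else x

/-- membership from a colouring of the vertices. -/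
theorem conv_of_color {par : Fin 22 → Fin 22} {sg : Fin 22 → ℕ} (ok : Ok par sg)
    (c : Fin 22 → ℕ)
    (hc : ∀ i j : Fin 12, c (lf i) = c (lf j) → (upc par c)^[10] (lf i) = (upc par c)^[10] (lf j)) :
    Setoid.ker (fun i : Fin 12 => c (lf i)) ∈ Conv (mk ok) := by
  refine ⟨{e | ∃ x y, e = s(x, y) ∧ c x ≠ c y}, ?_⟩
  intro i j
  rw [Setoid.ker_def]
  show c (lf i) = c (lf j) ↔ ((gr par).deleteEdges {e | ∃ x y, e = s(x, y) ∧ c x ≠ c y}).Reachable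
    (lf i) (lf j)
  have hadj : ∀ x y, (gr par).Adj x y → c x = c y →
      ((gr par).deleteEdges {e | ∃ x y, e = s(x, y) ∧ c x ≠ c y}).Adj x y := by
    intro x y h1 h2
    rw [SimpleGraph.deleteEdges_adj]
    refine ⟨h1, ?_⟩
    rintro ⟨u, v, huv, hne⟩
    rw [Sym2.eq_iff] at huv
    rcases huv with ⟨rfl, rfl⟩ | ⟨rfl, rfl⟩
    · exact hne h2
    · exact hne h2.symm
  have hup : ∀ (x : Fin 22) (k : ℕ),
      ((gr par).deleteEdges {e | ∃ x y, e = s(x, y) ∧ c x ≠ c y}).Reachable x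
        ((upc par c)^[k] x) := by
    intro x k
    induction k with
    | zero => exact SimpleGraph.Reachable.refl x
    | succ k ih =>
      rw [Function.iterate_succ_apply']
      refine ih.trans ?_
      generalize (upc par c)^[k] x = y
      unfold upc
      by_cases h : c (par y) = c y
      · rw [if_pos h]
        by_cases h' : y = par y
        · rw [← h']
        · exact SimpleGraph.Adj.reachable (hadj _ _ (gr_adj.2 ⟨h', Or.inl rfl⟩) h.symm)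
      · rw [if_neg h]
  have hsame : ∀ x y : Fin 22, ((gr par).deleteEdges
      {e | ∃ x y, e = s(x, y) ∧ c x ≠ c y}).Walk x y → c x = c y := by
    intro x y w
    induction w with
    | nil => rfl
    | @cons u v w hadj' p ih =>
      rw [SimpleGraph.deleteEdges_adj] at hadj'
      rw [← ih]
      by_contra hne
      exact hadj'.2 ⟨u, v, rfl, hne⟩
  constructor
  · intro h
    have h1 := hup (lf i) 10
    have h2 := hup (lf j) 10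
    rw [hc i j h] at h1
    exact h1.trans h2.symm
  · rintro ⟨w⟩
    exact hsame _ _ w

/-! ### The two trees -/

def pT : Fin 22 → Fin 22 := ![12, 21, 15, 13, 17, 14, 18, 18, 17, 12, 14, 11, 13, 16, 15, 16, 20, 19, 19, 20, 21, 11]
def sT : Fin 22 → ℕ := ![3223553, 2097154, 3244036, 3219464, 3801104, 3260448, 3932224, 3932288, 3801344, 3224064, 3261440, 0, 3223552, 3219456, 3260416, 3244032, 3211264, 3801088, 3932160, 3670016, 3145728, 2097152]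
def pF : Fin 22 → Fin 22 := ![14, 16, 12, 16, 12, 13, 13, 14, 17, 21, 17, 11, 20, 15, 15, 19, 18, 18, 19, 20, 21, 11]
def sF : Fin 22 → ℕ := ![3719169, 3997698, 3149828, 3997704, 3149840, 3711008, 3711040, 3719296, 4063488, 2097664, 4064256, 0, 3149824, 3710976, 3719168, 3702784, 3997696, 4063232, 3932160, 3670016, 3145728, 2097152]

theorem okT : Ok pT sT := ⟨by decide, by decide +kernel, by decide +kernel, by decide +kernel⟩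
theorem okF : Ok pF sF := ⟨by decide, by decide +kernel, by decide +kernel, by decide +kernel⟩

/-- the first tree -/
def T : SBTree 12 := mk okT

/-- the second tree -/
def F : SBTree 12 := mk okF

def lT : List ℕ := [3223553, 2097154, 3244036, 3219464, 3801104, 3260448, 3932224, 3932288, 3801344, 3224064, 3261440, 0]
def lF : List ℕ := [3719169, 3997698, 3149828, 3997704, 3149840, 3711008, 3711040, 3719296, 4063488, 2097664, 4064256, 0]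
def gT (x : ℕ) : ℕ := lT.getD x 0
def gF (x : ℕ) : ℕ := lF.getD x 0

theorem gT_eq : ∀ i : Fin 12, sT (lf i) = gT i := by decide +kernel
theorem gF_eq : ∀ i : Fin 12, sF (lf i) = gF i := by decide +kernel

/-! ### Representatives -/

noncomputable def rp (r : Setoid (Fin 12)) (i : Fin 12) : ℕ :=
  sInf {j : ℕ | ∃ hj : j < 12, r i ⟨j, hj⟩}

theorem rp_spec (r : Setoid (Fin 12)) (i : Fin 12) :
    ∃ hj : rp r i < 12, r i ⟨rp r i, hj⟩ := by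
  have : rp r i ∈ {j : ℕ | ∃ hj : j < 12, r i ⟨j, hj⟩} := Nat.sInf_mem ⟨i, i.isLt, r.refl i⟩
  exact this

theorem rp_le {r : Setoid (Fin 12)} {i j : Fin 12} (h : r i j) : rp r i ≤ j :=
  Nat.sInf_le ⟨j.isLt, h⟩

theorem rp_iff {r : Setoid (Fin 12)} {i j : Fin 12} : r i j ↔ rp r i = rp r j := by
  constructor
  · intro h
    unfold rp
    congr 1
    ext k
    constructor
    · rintro ⟨hk, h'⟩; exact ⟨hk, r.trans (r.symm h) h'⟩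
    · rintro ⟨hk, h'⟩; exact ⟨hk, r.trans h h'⟩
  · intro h
    obtain ⟨h1, h2⟩ := rp_spec r i
    obtain ⟨h3, h4⟩ := rp_spec r j
    have : (⟨rp r i, h1⟩ : Fin 12) = ⟨rp r j, h3⟩ := Fin.ext h
    rw [this] at h2
    exact r.trans h2 (r.symm h4)

noncomputable def rpn (r : Setoid (Fin 12)) (i : ℕ) : ℕ := if h : i < 12 then rp r ⟨i, h⟩ else 0

theorem rpn_lt {r : Setoid (Fin 12)} {i : ℕ} (h : i < 12) : rpn r i = rp r ⟨i, h⟩ := by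
  simp [rpn, h]

theorem rpn_le {r : Setoid (Fin 12)} {i : ℕ} (h : i < 12) : rpn r i ≤ i := by
  rw [rpn_lt h]; exact rp_le (r.refl _)

theorem rpn_idem {r : Setoid (Fin 12)} {i : ℕ} (h : i < 12) : rpn r (rpn r i) = rpn r i := by
  obtain ⟨h1, h2⟩ := rp_spec r ⟨i, h⟩
  rw [rpn_lt h, rpn_lt h1]
  exact (rp_iff.1 h2).symm

theorem setoid_ext' {r r' : Setoid (Fin 12)} (h : ∀ i < 12, rpn r i = rpn r' i) : r = r' := by
  ext i j
  show r i j ↔ r' i j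
  rw [rp_iff, rp_iff]
  have h1 := h i i.isLt
  have h2 := h j j.isLt
  rw [rpn_lt i.isLt, rpn_lt i.isLt] at h1
  rw [rpn_lt j.isLt, rpn_lt j.isLt] at h2
  rw [show (⟨(i : ℕ), i.isLt⟩ : Fin 12) = i from rfl] at h1
  rw [show (⟨(j : ℕ), j.isLt⟩ : Fin 12) = j from rfl] at h2
  rw [h1, h2]

theorem card_quot (r : Setoid (Fin 12)) :
    Nat.card (Quotient r) = ((List.range 12).filter (fun i => decide (rpn r i = i))).length := by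
  have hk : r = Setoid.ker (rp r) := by
    ext i j
    show r i j ↔ _
    rw [rp_iff, Setoid.ker_def]
  have h1 : Nat.card (Quotient r) = Nat.card (Set.range (rp r)) := by
    conv_lhs => rw [hk]
    exact Nat.card_congr (Setoid.quotientKerEquivRange _)
  have h2 : Set.range (rp r) =
      (((Finset.range 12).filter (fun i => rpn r i = i) : Finset ℕ) : Set ℕ) := by
    ext v
    simp only [Set.mem_range, Finset.coe_filter, Finset.mem_range, Set.mem_ofPred_eq]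
    constructor
    · rintro ⟨i, rfl⟩
      obtain ⟨h1, h2⟩ := rp_spec r i
      refine ⟨h1, ?_⟩
      rw [rpn_lt h1]
      exact (rp_iff.1 h2).symm
    · rintro ⟨hv, hv'⟩
      exact ⟨⟨v, hv⟩, by rw [rpn_lt hv] at hv'; exact hv'⟩
  rw [h1, h2, Nat.card_coe_set_eq, Set.ncard_coe_finset]
  rfl

/-! ### The exhaustive count -/

def upd (st : List (ℕ × ℕ × ℕ)) (v x : ℕ) : List (ℕ × ℕ × ℕ) :=
  st.map (fun q => if q.1 = v then
    (q.1, q.2.1 ||| (gT v ^^^ gT x), q.2.2 ||| (gF v ^^^ gF x)) else q)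

def chk (st : List (ℕ × ℕ × ℕ)) (v s t : ℕ) : Bool :=
  st.all (fun q => (q.1 == v) || (((q.2.1 &&& s) == 0) && ((q.2.2 &&& t) == 0)))

def fin (k : ℕ) (nr : List ℕ) (st : List (ℕ × ℕ × ℕ)) : Bool :=
  (st.length == k) && nr.any (fun u => nr.any (fun v => !(u == v)))

def cnt (k : ℕ) : List ℕ → List ℕ → List (ℕ × ℕ × ℕ) → ℕ
  | [], nr, st => if fin k nr st then 1 else 0
  | x :: xs, nr, st =>
    cnt k xs nr (st ++ [(x, 0, 0)]) +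
      (st.map (fun q =>
        if chk st q.1 (q.2.1 ||| (gT q.1 ^^^ gT x)) (q.2.2 ||| (gF q.1 ^^^ gF x)) then
          cnt k xs (q.1 :: nr) (upd st q.1 x) else 0)).sum

structure Rel (r : Setoid (Fin 12)) (m : ℕ) (w nr : List ℕ) (st : List (ℕ × ℕ × ℕ)) : Prop where
  hw : w = ((List.range m).map (rpn r)).reverse
  hnr : ∀ x < m, rpn r x ≠ x → rpn r x ∈ nr
  hst : st.map Prod.fst = (List.range m).filter (fun i => decide (rpn r i = i))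
  hT : ∀ q ∈ st, ∀ e, q.2.1.testBit e = true →
    ∃ x < 12, rpn r x = q.1 ∧ (gT q.1 ^^^ gT x).testBit e = true
  hF : ∀ q ∈ st, ∀ e, q.2.2.testBit e = true →
    ∃ x < 12, rpn r x = q.1 ∧ (gF q.1 ^^^ gF x).testBit e = true

def Good (k : ℕ) (r : Setoid (Fin 12)) : Prop :=
  r ∈ Conv T ∧ r ∈ Conv F ∧ Nat.card (Quotient r) = k ∧ Nontriv r

theorem critT {r : Setoid (Fin 12)} (hr : r ∈ Conv T) {u v x y e : ℕ} (hu : u < 12) (hv : v < 12)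
    (hx : x < 12) (hy : y < 12) (hu' : rpn r u = u) (hv' : rpn r v = v)
    (hxu : rpn r x = u) (hyv : rpn r y = v)
    (b1 : (gT u ^^^ gT x).testBit e = true) (b2 : (gT v ^^^ gT y).testBit e = true) : u = v := by
  rw [rpn_lt hu] at hu'; rw [rpn_lt hv] at hv'; rw [rpn_lt hx] at hxu; rw [rpn_lt hy] at hyv
  have h1 : r ⟨u, hu⟩ ⟨x, hx⟩ := rp_iff.2 (by rw [hu', hxu])
  have h2 : r ⟨v, hv⟩ ⟨y, hy⟩ := rp_iff.2 (by rw [hv', hyv])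
  have := crit okT hr h1 h2 (e := e) (by rw [gT_eq, gT_eq]; exact b1) (by rw [gT_eq, gT_eq]; exact b2)
  have := rp_iff.1 this
  rw [hu', hv'] at this
  exact this

theorem critF {r : Setoid (Fin 12)} (hr : r ∈ Conv F) {u v x y e : ℕ} (hu : u < 12) (hv : v < 12)
    (hx : x < 12) (hy : y < 12) (hu' : rpn r u = u) (hv' : rpn r v = v)
    (hxu : rpn r x = u) (hyv : rpn r y = v)
    (b1 : (gF u ^^^ gF x).testBit e = true) (b2 : (gF v ^^^ gF y).testBit e = true) : u = v := by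
  rw [rpn_lt hu] at hu'; rw [rpn_lt hv] at hv'; rw [rpn_lt hx] at hxu; rw [rpn_lt hy] at hyv
  have h1 : r ⟨u, hu⟩ ⟨x, hx⟩ := rp_iff.2 (by rw [hu', hxu])
  have h2 : r ⟨v, hv⟩ ⟨y, hy⟩ := rp_iff.2 (by rw [hv', hyv])
  have := crit okF hr h1 h2 (e := e) (by rw [gF_eq, gF_eq]; exact b1) (by rw [gF_eq, gF_eq]; exact b2)
  have := rp_iff.1 this
  rw [hu', hv'] at this
  exact this

theorem list_cover {α β : Type} (st : List β) (B : β → Set α) (c : β → ℕ) :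
    ∀ (S : Set α), (∀ q ∈ st, (B q).encard ≤ (c q : ℕ)) → (∀ x ∈ S, ∃ q ∈ st, x ∈ B q) →
      S.encard ≤ (((st.map c).sum : ℕ) : ℕ∞) := by
  induction st with
  | nil =>
    intro S _ h
    have : S = ∅ := by
      rw [Set.eq_empty_iff_forall_notMem]
      intro x hx; obtain ⟨q, hq, -⟩ := h x hx; simp at hq
    rw [this]; simp
  | cons a l ih =>
    intro S hb h
    rw [List.map_cons, List.sum_cons, Nat.cast_add]
    have h1 : S ⊆ B a ∪ {x | x ∈ S ∧ ∃ q ∈ l, x ∈ B q} := by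
      intro x hx
      obtain ⟨q, hq, hxq⟩ := h x hx
      rcases List.mem_cons.1 hq with hq | hq
      · left; rw [← hq]; exact hxq
      · right; exact ⟨hx, q, hq, hxq⟩
    refine le_trans (Set.encard_le_encard h1) (le_trans (Set.encard_union_le _ _) ?_)
    refine add_le_add (hb a (by simp)) ?_
    exact ih {x | x ∈ S ∧ ∃ q ∈ l, x ∈ B q} (fun q hq => hb q (by simp [hq]))
      (fun x (hx : x ∈ S ∧ ∃ q ∈ l, x ∈ B q) => hx.2)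

theorem exists_bit {a b : ℕ} (h : ¬ (a &&& b) = 0) : ∃ e, a.testBit e = true ∧ b.testBit e = true := by
  by_contra hcon
  push Not at hcon
  apply h
  apply Nat.eq_of_testBit_eq
  intro e
  rw [Nat.testBit_and]
  have := hcon e
  cases h1 : a.testBit e <;> simp_all

theorem bound (k : ℕ) : ∀ (xs : List ℕ) (m : ℕ) (w nr : List ℕ) (st : List (ℕ × ℕ × ℕ)),
    m + xs.length = 12 → xs = List.range' m (12 - m) →
    {r : Setoid (Fin 12) | Good k r ∧ Rel r m w nr st}.encard ≤ (cnt k xs nr st : ℕ) := by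
  intro xs
  induction xs with
  | nil =>
    intro m w nr st hm _
    have hm12 : m = 12 := by simpa using hm
    subst hm12
    by_cases hf : fin k nr st = true
    · have : cnt k [] nr st = 1 := by simp [cnt, hf]
      rw [this]
      rw [Nat.cast_one, Set.encard_le_one_iff]
      rintro r r' ⟨-, h1⟩ ⟨-, h2⟩
      have h3 := h1.hw.symm.trans h2.hw
      have h4 := List.reverse_injective h3
      apply setoid_ext'
      intro i hi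
      exact List.map_inj_left.1 h4 i (List.mem_range.2 hi)
    · have : {r : Setoid (Fin 12) | Good k r ∧ Rel r 12 w nr st} = ∅ := by
        rw [Set.eq_empty_iff_forall_notMem]
        rintro r ⟨⟨-, -, hk, i, i', j, j', hi, hii, hj, hjj, hij⟩, hrel⟩
        apply hf
        unfold fin
        rw [Bool.and_eq_true]
        constructor
        · rw [beq_iff_eq, ← hk, card_quot, ← hrel.hst, List.length_map]
        · -- a non-representative in the class of `i`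
          have aux : ∀ i i' : Fin 12, i ≠ i' → r i i' → rp r i ∈ nr := by
            intro i i' hne hr
            by_cases h : rp r i = i
            · have h' : rp r i' ≠ i' := by
                intro h''
                have := rp_iff.1 hr
                rw [h, h''] at this
                exact hne (Fin.ext this)
              have := hrel.hnr i' i'.isLt (by rw [rpn_lt i'.isLt]; exact h')
              rw [rpn_lt i'.isLt] at this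
              rw [rp_iff.1 hr]; exact this
            · have := hrel.hnr i i.isLt (by rw [rpn_lt i.isLt]; exact h)
              rw [rpn_lt i.isLt] at this
              exact this
          rw [List.any_eq_true]
          refine ⟨rp r i, aux i i' hi hii, ?_⟩
          rw [List.any_eq_true]
          refine ⟨rp r j, aux j j' hj hjj, ?_⟩
          have : rp r i ≠ rp r j := fun h => hij (rp_iff.2 h)
          simpa using this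
      rw [this]; simp
  | cons x xs ih =>
    intro m w nr st hm hxs
    have hm12 : m < 12 := by
      rw [List.length_cons] at hm; omega
    have h12 : 12 - m = (12 - (m + 1)) + 1 := by omega
    rw [h12, List.range'_succ] at hxs
    obtain ⟨hx, hxs'⟩ := List.cons.inj hxs
    subst hx
    have hlen : x + 1 + xs.length = 12 := by
      rw [List.length_cons] at hm; omega
    have hcov : {r : Setoid (Fin 12) | Good k r ∧ Rel r x w nr st} ⊆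
        {r | Good k r ∧ Rel r (x + 1) (x :: w) nr (st ++ [(x, 0, 0)])} ∪
        {r | ∃ q ∈ st, r ∈ {r | (Good k r ∧ Rel r (x + 1) (q.1 :: w) (q.1 :: nr) (upd st q.1 x)) ∧
          chk st q.1 (q.2.1 ||| (gT q.1 ^^^ gT x)) (q.2.2 ||| (gF q.1 ^^^ gF x)) = true}} := by
      rintro r ⟨hg, hrel⟩
      by_cases hv : rpn r x = x
      · left
        refine ⟨hg, ⟨?_, ?_, ?_, ?_, ?_⟩⟩
        · rw [List.range_succ, List.map_append, List.reverse_append, hrel.hw]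
          simp [hv]
        · intro y hy hne
          have : y ≠ x := by intro hh; rw [hh] at hne; exact hne hv
          exact hrel.hnr y (by omega) hne
        · rw [List.map_append, hrel.hst, List.range_succ, List.filter_append]
          simp [hv]
        · intro q hq e he
          rcases List.mem_append.1 hq with hq | hq
          · exact hrel.hT q hq e he
          · rw [List.mem_singleton] at hq; subst hq; simp at he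
        · intro q hq e he
          rcases List.mem_append.1 hq with hq | hq
          · exact hrel.hF q hq e he
          · rw [List.mem_singleton] at hq; subst hq; simp at he
      · right
        have hvle := rpn_le (r := r) hm12
        have hvlt : rpn r x < x := by omega
        have hidem := rpn_idem (r := r) hm12
        have hmem : rpn r x ∈ st.map Prod.fst := by
          rw [hrel.hst, List.mem_filter]
          exact ⟨List.mem_range.2 hvlt, by simpa using hidem⟩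
        obtain ⟨q, hq, hq1⟩ := List.mem_map.1 hmem
        have facts : ∀ q' ∈ st, q'.1 < x ∧ rpn r q'.1 = q'.1 := by
          intro q' hq'
          have : q'.1 ∈ st.map Prod.fst := List.mem_map.2 ⟨q', hq', rfl⟩
          rw [hrel.hst, List.mem_filter] at this
          exact ⟨List.mem_range.1 this.1, by simpa using this.2⟩
        have sT' : ∀ e, (q.2.1 ||| (gT q.1 ^^^ gT x)).testBit e = true →
            ∃ y < 12, rpn r y = q.1 ∧ (gT q.1 ^^^ gT y).testBit e = true := by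
          intro e he
          rw [Nat.testBit_or, Bool.or_eq_true] at he
          rcases he with he | he
          · exact hrel.hT q hq e he
          · exact ⟨x, hm12, hq1.symm, he⟩
        have sF' : ∀ e, (q.2.2 ||| (gF q.1 ^^^ gF x)).testBit e = true →
            ∃ y < 12, rpn r y = q.1 ∧ (gF q.1 ^^^ gF y).testBit e = true := by
          intro e he
          rw [Nat.testBit_or, Bool.or_eq_true] at he
          rcases he with he | he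
          · exact hrel.hF q hq e he
          · exact ⟨x, hm12, hq1.symm, he⟩
        refine ⟨q, hq, ⟨hg, ⟨?_, ?_, ?_, ?_, ?_⟩⟩, ?_⟩
        · rw [List.range_succ, List.map_append, List.reverse_append, hrel.hw]
          simp [hq1]
        · intro y hy hne
          by_cases hyx : y = x
          · rw [hyx, ← hq1]; simp
          · exact List.mem_cons_of_mem _ (hrel.hnr y (by omega) hne)
        · have : (upd st q.1 x).map Prod.fst = st.map Prod.fst := by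
            unfold upd
            rw [List.map_map]
            apply List.map_congr_left
            intro q' _
            by_cases h : q'.1 = q.1 <;> simp [h]
          rw [this, hrel.hst, List.range_succ, List.filter_append]
          simp [hv]
        · intro q' hq' e he
          unfold upd at hq'
          obtain ⟨q0, hq0, rfl⟩ := List.mem_map.1 hq'
          by_cases h : q0.1 = q.1
          · rw [if_pos h] at he ⊢
            simp only at he ⊢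
            rw [Nat.testBit_or, Bool.or_eq_true] at he
            rcases he with he | he
            · exact hrel.hT q0 hq0 e he
            · exact ⟨x, hm12, by rw [h, hq1], by rw [h]; exact he⟩
          · rw [if_neg h] at he ⊢
            exact hrel.hT q0 hq0 e he
        · intro q' hq' e he
          unfold upd at hq'
          obtain ⟨q0, hq0, rfl⟩ := List.mem_map.1 hq'
          by_cases h : q0.1 = q.1
          · rw [if_pos h] at he ⊢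
            simp only at he ⊢
            rw [Nat.testBit_or, Bool.or_eq_true] at he
            rcases he with he | he
            · exact hrel.hF q0 hq0 e he
            · exact ⟨x, hm12, by rw [h, hq1], by rw [h]; exact he⟩
          · rw [if_neg h] at he ⊢
            exact hrel.hF q0 hq0 e he
        · unfold chk
          rw [List.all_eq_true]
          intro q' hq'
          by_cases h : q'.1 = q.1
          · simp [h]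
          · have f1 := facts q hq
            have f2 := facts q' hq'
            have g1 : (q'.2.1 &&& (q.2.1 ||| (gT q.1 ^^^ gT x))) = 0 := by
              by_contra hne
              obtain ⟨e, he1, he2⟩ := exists_bit hne
              obtain ⟨y, hy, hy1, hy2⟩ := hrel.hT q' hq' e he1
              obtain ⟨z, hz, hz1, hz2⟩ := sT' e he2
              exact h (critT hg.1 (by omega) (by omega) hy hz f2.2 f1.2 hy1 hz1 hy2 hz2)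
            have g2 : (q'.2.2 &&& (q.2.2 ||| (gF q.1 ^^^ gF x))) = 0 := by
              by_contra hne
              obtain ⟨e, he1, he2⟩ := exists_bit hne
              obtain ⟨y, hy, hy1, hy2⟩ := hrel.hF q' hq' e he1
              obtain ⟨z, hz, hz1, hz2⟩ := sF' e he2
              exact h (critF hg.2.1 (by omega) (by omega) hy hz f2.2 f1.2 hy1 hz1 hy2 hz2)
            rw [g1, g2]
            simp
    refine le_trans (Set.encard_le_encard hcov) (le_trans (Set.encard_union_le _ _) ?_)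
    have hcnt : cnt k (x :: xs) nr st = cnt k xs nr (st ++ [(x, 0, 0)]) +
      (st.map (fun q =>
        if chk st q.1 (q.2.1 ||| (gT q.1 ^^^ gT x)) (q.2.2 ||| (gF q.1 ^^^ gF x)) then
          cnt k xs (q.1 :: nr) (upd st q.1 x) else 0)).sum := rfl
    rw [hcnt, Nat.cast_add]
    refine add_le_add (ih (x + 1) _ _ _ hlen hxs') ?_
    refine list_cover st (fun q => {r | (Good k r ∧
      Rel r (x + 1) (q.1 :: w) (q.1 :: nr) (upd st q.1 x)) ∧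
          chk st q.1 (q.2.1 ||| (gT q.1 ^^^ gT x)) (q.2.2 ||| (gF q.1 ^^^ gF x)) = true}) _ _ ?_
      (fun r hr => hr)
    intro q hq
    by_cases hc : chk st q.1 (q.2.1 ||| (gT q.1 ^^^ gT x)) (q.2.2 ||| (gF q.1 ^^^ gF x)) = true
    · rw [if_pos hc]
      refine le_trans (Set.encard_le_encard ?_) (ih (x + 1) (q.1 :: w) (q.1 :: nr)
        (upd st q.1 x) hlen hxs')
      intro r hr
      exact hr.1
    · rw [if_neg hc]
      have : {r | (Good k r ∧ Rel r (x + 1) (q.1 :: w) (q.1 :: nr) (upd st q.1 x)) ∧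
          chk st q.1 (q.2.1 ||| (gT q.1 ^^^ gT x)) (q.2.2 ||| (gF q.1 ^^^ gF x)) = true} = ∅ := by
        rw [Set.eq_empty_iff_forall_notMem]
        rintro r ⟨-, hr⟩
        exact hc hr
      rw [this]; simp

theorem finite_setoid : Finite (Setoid (Fin 12)) := by
  apply Finite.of_injective (fun r : Setoid (Fin 12) => (fun i j => r i j : Fin 12 → Fin 12 → Prop))
  intro r r' h
  ext i j
  exact iff_of_eq (congrFun (congrFun h i) j)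

theorem a8_le : a T F 8 ≤ 83 := by
  have h := bound 8 (List.range' 0 12) 0 [] [] [] (by decide) rfl
  have hc : cnt 8 (List.range' 0 12) [] [] = 83 := by decide +kernel
  rw [hc] at h
  have hs : {r : Setoid (Fin 12) | r ∈ Conv T ∧ r ∈ Conv F ∧ Nat.card (Quotient r) = 8 ∧
      Nontriv r} ⊆ {r | Good 8 r ∧ Rel r 0 [] [] []} := by
    intro r hr
    refine ⟨hr, ⟨rfl, ?_, rfl, ?_, ?_⟩⟩
    · intro x hx; omega
    · intro q hq; simp at hq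
    · intro q hq; simp at hq
  have h2 := le_trans (Set.encard_le_encard hs) h
  have := finite_setoid
  unfold a
  rw [← (Set.toFinite _).cast_ncard_eq] at h2
  exact_mod_cast h2

/-! ### Lower bounds from lists -/

def sd (l : List ℕ) : Setoid (Fin 12) := Setoid.ker (fun i : Fin 12 => l.getD i 0)

def colr (code col : List ℕ) : Fin 22 → ℕ := fun x => (code ++ col).getD x 0

def canon (l : List ℕ) : Bool :=
  (l.length == 12) && (List.range 12).all (fun i =>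
    decide (l.getD i 0 ≤ i) && (l.getD (l.getD i 0) 0 == l.getD i 0))

def okc (par : Fin 22 → Fin 22) (code col : List ℕ) : Bool :=
  (List.finRange 12).all (fun i => decide ((upc par (colr code col))^[10] (lf i) =
    (upc par (colr code col))^[10] (lf (Fin.ofNat 12 (code.getD i 0)))))

def nt (l : List ℕ) : Bool :=
  (List.range 12).any (fun i => (List.range 12).any (fun j =>
    !(l.getD i 0 == i) && !(l.getD j 0 == j) && !(l.getD i 0 == l.getD j 0)))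

def good (k : ℕ) (d : List ℕ × List ℕ × List ℕ) : Bool :=
  canon d.1 && okc pT d.1 d.2.1 && okc pF d.1 d.2.2 && nt d.1 &&
    (((List.range 12).filter (fun i => decide (d.1.getD i 0 = i))).length == k)

theorem canon_props {l : List ℕ} (h : canon l = true) :
    l.length = 12 ∧ ∀ i < 12, l.getD i 0 ≤ i ∧ l.getD (l.getD i 0) 0 = l.getD i 0 := by
  unfold canon at h
  rw [Bool.and_eq_true, List.all_eq_true] at h
  refine ⟨by simpa using h.1, ?_⟩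
  intro i hi
  have := h.2 i (List.mem_range.2 hi)
  rw [Bool.and_eq_true] at this
  exact ⟨by simpa using this.1, by simpa using this.2⟩

theorem sd_iff {l : List ℕ} {i j : Fin 12} : sd l i j ↔ l.getD i 0 = l.getD j 0 := Setoid.ker_def

theorem rpn_sd {l : List ℕ} (h : canon l = true) {i : ℕ} (hi : i < 12) :
    rpn (sd l) i = l.getD i 0 := by
  obtain ⟨h1, h2⟩ := canon_props h
  rw [rpn_lt hi]
  have a1 := h2 i hi
  have hlt : l.getD i 0 < 12 := by omega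
  apply le_antisymm
  · have : sd l ⟨i, hi⟩ ⟨l.getD i 0, hlt⟩ := by
      rw [sd_iff]; exact a1.2.symm
    exact rp_le this
  · obtain ⟨h3, h4⟩ := rp_spec (sd l) ⟨i, hi⟩
    rw [sd_iff] at h4
    have h5 : l.getD i 0 = l.getD (rp (sd l) ⟨i, hi⟩) 0 := h4
    rw [h5]
    exact (h2 _ h3).1

theorem conv_sd {par : Fin 22 → Fin 22} {sg : Fin 22 → ℕ} (ok : Ok par sg) {l col : List ℕ}
    (h : canon l = true) (hc : okc par l col = true) : sd l ∈ Conv (mk ok) := by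
  obtain ⟨h1, h2⟩ := canon_props h
  have hcol : ∀ i : Fin 12, colr l col (lf i) = l.getD i 0 := by
    intro i
    unfold colr
    have hi : ((lf i : Fin 22) : ℕ) = i := rfl
    rw [hi, List.getD_append _ _ _ _ (by rw [h1]; exact i.isLt)]
  have e : sd l = Setoid.ker (fun i : Fin 12 => colr l col (lf i)) := by
    unfold sd
    congr 1
    funext i
    exact (hcol i).symm
  rw [e]
  apply conv_of_color ok
  intro i j hij
  rw [hcol, hcol] at hij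
  unfold okc at hc
  rw [List.all_eq_true] at hc
  have c1 := hc i (List.mem_finRange i)
  have c2 := hc j (List.mem_finRange j)
  simp only [decide_eq_true_eq] at c1 c2
  rw [c1, c2, hij]

theorem good_props {k : ℕ} {d : List ℕ × List ℕ × List ℕ} (h : good k d = true) :
    canon d.1 = true ∧ Good k (sd d.1) := by
  unfold good at h
  rw [Bool.and_eq_true, Bool.and_eq_true, Bool.and_eq_true, Bool.and_eq_true] at h
  obtain ⟨⟨⟨⟨h1, h2⟩, h3⟩, h4⟩, h5⟩ := h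
  refine ⟨h1, conv_sd okT h1 h2, conv_sd okF h1 h3, ?_, ?_⟩
  · rw [card_quot]
    rw [← beq_iff_eq.1 h5]
    congr 1
    apply List.filter_congr
    intro i hi
    rw [rpn_sd h1 (List.mem_range.1 hi)]
  · unfold nt at h4
    rw [List.any_eq_true] at h4
    obtain ⟨i, hi, h4⟩ := h4
    rw [List.any_eq_true] at h4
    obtain ⟨j, hj, h4⟩ := h4
    rw [Bool.and_eq_true, Bool.and_eq_true] at h4
    obtain ⟨⟨n1, n2⟩, n3⟩ := h4
    rw [List.mem_range] at hi hj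
    obtain ⟨-, hp⟩ := canon_props h1
    have pi := hp i hi
    have pj := hp j hj
    have n1' : d.1.getD i 0 ≠ i := by simpa using n1
    have n2' : d.1.getD j 0 ≠ j := by simpa using n2
    have n3' : d.1.getD i 0 ≠ d.1.getD j 0 := by simpa using n3
    refine ⟨⟨i, hi⟩, ⟨d.1.getD i 0, by omega⟩, ⟨j, hj⟩, ⟨d.1.getD j 0, by omega⟩, ?_, ?_, ?_, ?_, ?_⟩
    · intro hh; exact n1' (congrArg Fin.val hh).symm
    · rw [sd_iff]; exact pi.2.symm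
    · intro hh; exact n2' (congrArg Fin.val hh).symm
    · rw [sd_iff]; exact pj.2.symm
    · rw [sd_iff]; exact n3'

theorem lower {k c : ℕ} (D : List (List ℕ × List ℕ × List ℕ)) (h : D.all (good k) = true)
    (hcard : (D.map Prod.fst).toFinset.card = c) : c ≤ a T F k := by
  rw [List.all_eq_true] at h
  have hinj : Set.InjOn sd ((D.map Prod.fst).toFinset : Set (List ℕ)) := by
    intro l hl l' hl' he
    rw [Finset.mem_coe, List.mem_toFinset, List.mem_map] at hl hl'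
    obtain ⟨d, hd, rfl⟩ := hl
    obtain ⟨d', hd', rfl⟩ := hl'
    have c1 := (good_props (h d hd)).1
    have c2 := (good_props (h d' hd')).1
    apply List.ext_getElem
    · rw [(canon_props c1).1, (canon_props c2).1]
    · intro i h1 h2
      have hi : i < 12 := by rw [(canon_props c1).1] at h1; exact h1
      have e1 := rpn_sd c1 hi
      have e2 := rpn_sd c2 hi
      rw [he, e2] at e1
      rw [List.getD_eq_getElem _ _ h2, List.getD_eq_getElem _ _ h1] at e1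
      exact e1.symm
  have := finite_setoid
  unfold a
  rw [← hcard, ← Set.ncard_coe_finset, ← Set.InjOn.ncard_image hinj]
  apply Set.ncard_le_ncard _ (Set.toFinite _)
  rintro r ⟨l, hl, rfl⟩
  rw [Finset.mem_coe, List.mem_toFinset, List.mem_map] at hl
  obtain ⟨d, hd, rfl⟩ := hl
  exact (good_props (h d hd)).2

def d7 : List (List ℕ × List ℕ × List ℕ) := [
  ([0, 1, 2, 3, 4, 5, 6, 6, 1, 1, 1, 1], [1, 1, 1, 1, 1, 1, 6, 1, 1, 1], [112, 6, 6, 6, 1, 1, 1, 1, 1, 1]),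
  ([0, 1, 2, 3, 4, 5, 6, 6, 2, 2, 2, 2], [2, 2, 2, 2, 2, 2, 6, 2, 2, 2], [2, 6, 6, 6, 116, 2, 2, 2, 2, 2]),
  ([0, 1, 2, 3, 4, 5, 6, 6, 3, 3, 3, 3], [3, 3, 3, 3, 3, 3, 6, 3, 3, 3], [112, 6, 6, 6, 3, 3, 3, 3, 3, 3]),
  ([0, 1, 2, 3, 4, 5, 6, 6, 4, 4, 4, 4], [4, 4, 4, 4, 4, 4, 6, 4, 4, 4], [4, 6, 6, 6, 116, 4, 4, 4, 4, 4]),
  ([0, 1, 2, 3, 1, 5, 6, 6, 8, 1, 1, 1], [1, 1, 1, 1, 1, 1, 6, 1, 1, 1], [1, 6, 6, 6, 1, 1, 1, 1, 1, 1]),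
  ([0, 1, 2, 3, 1, 5, 6, 6, 1, 9, 1, 1], [112, 113, 1, 1, 1, 1, 6, 1, 1, 1], [1, 6, 6, 6, 1, 1, 1, 1, 1, 1]),
  ([0, 1, 2, 3, 1, 5, 6, 6, 1, 1, 10, 1], [1, 1, 114, 115, 1, 1, 6, 1, 1, 1], [1, 6, 6, 6, 1, 1, 1, 1, 1, 1]),
  ([0, 1, 2, 3, 1, 5, 6, 6, 1, 1, 1, 11], [1, 1, 1, 1, 1, 1, 6, 1, 1, 1], [1, 6, 6, 6, 1, 1, 1, 1, 1, 1]),
  ([0, 1, 2, 3, 2, 5, 6, 6, 8, 2, 2, 2], [2, 2, 2, 2, 2, 2, 6, 2, 2, 2], [2, 6, 6, 6, 116, 2, 2, 2, 2, 2]),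
  ([0, 1, 2, 3, 2, 5, 6, 6, 2, 9, 2, 2], [112, 113, 2, 2, 2, 2, 6, 2, 2, 2], [2, 6, 6, 6, 116, 2, 2, 2, 2, 2]),
  ([0, 1, 2, 3, 2, 5, 6, 6, 2, 2, 10, 2], [2, 2, 114, 2, 2, 2, 6, 2, 2, 2], [2, 6, 6, 6, 116, 2, 2, 2, 2, 2]),
  ([0, 1, 2, 3, 2, 5, 6, 6, 2, 2, 2, 11], [2, 2, 2, 2, 2, 2, 6, 2, 2, 121], [2, 6, 6, 6, 116, 2, 2, 2, 2, 2]),
  ([0, 1, 2, 3, 3, 5, 6, 6, 8, 3, 3, 3], [3, 3, 3, 3, 3, 3, 6, 3, 3, 3], [3, 6, 6, 6, 3, 3, 3, 3, 3, 3]),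
  ([0, 1, 2, 3, 3, 5, 6, 6, 3, 9, 3, 3], [112, 3, 3, 3, 3, 3, 6, 3, 3, 3], [3, 6, 6, 6, 3, 3, 3, 3, 3, 3]),
  ([0, 1, 2, 3, 3, 5, 6, 6, 3, 3, 10, 3], [3, 3, 114, 115, 3, 3, 6, 3, 3, 3], [3, 6, 6, 6, 3, 3, 3, 3, 3, 3]),
  ([0, 1, 2, 3, 3, 5, 6, 6, 3, 3, 3, 11], [3, 3, 3, 3, 3, 3, 6, 3, 3, 121], [3, 6, 6, 6, 3, 3, 3, 3, 3, 3]),
  ([0, 1, 2, 1, 4, 5, 6, 6, 8, 1, 1, 1], [1, 1, 1, 1, 1, 117, 6, 119, 1, 1], [112, 6, 6, 6, 1, 1, 1, 1, 1, 1]),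
  ([0, 1, 2, 1, 4, 5, 6, 6, 1, 9, 1, 1], [112, 1, 1, 1, 1, 1, 6, 1, 1, 1], [112, 6, 6, 6, 1, 1, 1, 1, 1, 1]),
  ([0, 1, 2, 1, 4, 5, 6, 6, 1, 1, 10, 1], [1, 1, 114, 115, 1, 1, 6, 1, 1, 1], [112, 6, 6, 6, 1, 1, 1, 1, 1, 1]),
  ([0, 1, 2, 1, 4, 5, 6, 6, 1, 1, 1, 11], [1, 1, 1, 1, 1, 1, 6, 1, 1, 1], [112, 6, 6, 6, 1, 1, 1, 1, 1, 1]),
  ([0, 1, 2, 1, 1, 5, 6, 6, 8, 9, 1, 1], [112, 1, 1, 1, 1, 1, 6, 1, 1, 1], [1, 6, 6, 6, 1, 1, 1, 1, 1, 1]),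
  ([0, 1, 2, 1, 1, 5, 6, 6, 8, 1, 10, 1], [1, 1, 114, 115, 1, 1, 6, 1, 1, 1], [1, 6, 6, 6, 1, 117, 1, 1, 1, 1]),
  ([0, 1, 2, 1, 1, 5, 6, 6, 8, 1, 1, 11], [1, 1, 1, 1, 1, 1, 6, 1, 1, 1], [1, 6, 6, 6, 1, 1, 1, 1, 1, 1]),
  ([0, 1, 2, 1, 1, 5, 6, 6, 1, 9, 10, 1], [112, 1, 114, 115, 1, 1, 6, 1, 1, 1], [1, 6, 6, 6, 1, 1, 1, 1, 1, 1]),
  ([0, 1, 2, 1, 1, 5, 6, 6, 1, 9, 1, 11], [112, 1, 1, 1, 1, 1, 6, 1, 1, 1], [1, 6, 6, 6, 1, 1, 1, 1, 1, 121]),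
  ([0, 1, 2, 1, 1, 5, 6, 6, 1, 1, 10, 11], [1, 1, 114, 115, 1, 1, 6, 1, 1, 1], [1, 6, 6, 6, 1, 1, 1, 1, 1, 1]),
  ([0, 1, 2, 2, 4, 5, 6, 6, 8, 2, 2, 2], [2, 2, 2, 2, 2, 117, 6, 119, 2, 2], [2, 6, 6, 6, 2, 2, 2, 2, 2, 2]),
  ([0, 1, 2, 2, 4, 5, 6, 6, 2, 9, 2, 2], [112, 2, 2, 2, 2, 2, 6, 2, 2, 2], [2, 6, 6, 6, 2, 2, 2, 2, 2, 2]),
  ([0, 1, 2, 2, 4, 5, 6, 6, 2, 2, 10, 2], [2, 2, 114, 2, 2, 2, 6, 2, 2, 2], [2, 6, 6, 6, 2, 2, 2, 2, 2, 2]),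
  ([0, 1, 2, 2, 4, 5, 6, 6, 2, 2, 2, 11], [2, 2, 2, 2, 2, 2, 6, 2, 2, 121], [2, 6, 6, 6, 2, 2, 2, 2, 2, 2]),
  ([0, 1, 2, 2, 2, 5, 6, 6, 8, 9, 2, 2], [112, 2, 2, 2, 2, 2, 6, 2, 2, 2], [2, 6, 6, 6, 2, 2, 2, 2, 2, 2]),
  ([0, 1, 2, 2, 2, 5, 6, 6, 8, 2, 10, 2], [2, 2, 114, 2, 2, 2, 6, 2, 2, 2], [2, 6, 6, 6, 2, 117, 2, 2, 2, 2]),
  ([0, 1, 2, 2, 2, 5, 6, 6, 8, 2, 2, 11], [2, 2, 2, 2, 2, 2, 6, 2, 2, 121], [2, 6, 6, 6, 2, 2, 2, 2, 2, 2]),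
  ([0, 1, 2, 2, 2, 5, 6, 6, 2, 9, 10, 2], [112, 2, 114, 2, 2, 2, 6, 2, 2, 2], [2, 6, 6, 6, 2, 2, 2, 2, 2, 2]),
  ([0, 1, 2, 2, 2, 5, 6, 6, 2, 9, 2, 11], [112, 2, 2, 2, 2, 2, 6, 2, 2, 121], [2, 6, 6, 6, 2, 2, 2, 2, 2, 121]),
  ([0, 1, 2, 2, 2, 5, 6, 6, 2, 2, 10, 11], [2, 2, 114, 2, 2, 2, 6, 2, 2, 121], [2, 6, 6, 6, 2, 2, 2, 2, 2, 2]),
  ([0, 1, 1, 3, 4, 5, 6, 6, 8, 1, 1, 1], [1, 1, 1, 1, 1, 117, 6, 119, 1, 1], [1, 6, 6, 6, 1, 1, 1, 1, 1, 1]),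
  ([0, 1, 1, 3, 4, 5, 6, 6, 1, 9, 1, 1], [112, 113, 1, 1, 1, 1, 6, 1, 1, 1], [1, 6, 6, 6, 1, 1, 1, 1, 1, 1]),
  ([0, 1, 1, 3, 4, 5, 6, 6, 1, 1, 10, 1], [1, 1, 114, 1, 1, 1, 6, 1, 1, 1], [1, 6, 6, 6, 1, 1, 1, 1, 1, 1]),
  ([0, 1, 1, 3, 4, 5, 6, 6, 1, 1, 1, 11], [1, 1, 1, 1, 1, 1, 6, 1, 1, 1], [1, 6, 6, 6, 1, 1, 1, 1, 1, 1]),
  ([0, 1, 1, 3, 1, 5, 6, 6, 8, 9, 1, 1], [112, 113, 1, 1, 1, 1, 6, 1, 1, 1], [1, 6, 6, 6, 1, 1, 1, 1, 1, 1]),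
  ([0, 1, 1, 3, 1, 5, 6, 6, 8, 1, 10, 1], [1, 1, 114, 1, 1, 1, 6, 1, 1, 1], [1, 6, 6, 6, 1, 117, 1, 1, 1, 1]),
  ([0, 1, 1, 3, 1, 5, 6, 6, 8, 1, 1, 11], [1, 1, 1, 1, 1, 1, 6, 1, 1, 1], [1, 6, 6, 6, 1, 1, 1, 1, 1, 1]),
  ([0, 1, 1, 3, 1, 5, 6, 6, 1, 9, 10, 1], [112, 113, 114, 1, 1, 1, 6, 1, 1, 1], [1, 6, 6, 6, 1, 1, 1, 1, 1, 1]),
  ([0, 1, 1, 3, 1, 5, 6, 6, 1, 9, 1, 11], [112, 113, 1, 1, 1, 1, 6, 1, 1, 1], [1, 6, 6, 6, 1, 1, 1, 1, 1, 121]),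
  ([0, 1, 1, 3, 1, 5, 6, 6, 1, 1, 10, 11], [1, 1, 114, 1, 1, 1, 6, 1, 1, 1], [1, 6, 6, 6, 1, 1, 1, 1, 1, 1]),
  ([0, 1, 1, 1, 4, 5, 6, 6, 8, 9, 1, 1], [112, 1, 1, 1, 1, 117, 6, 119, 1, 1], [1, 6, 6, 6, 1, 1, 1, 1, 1, 1]),
  ([0, 1, 1, 1, 4, 5, 6, 6, 8, 1, 10, 1], [1, 1, 114, 1, 1, 117, 6, 119, 1, 1], [1, 6, 6, 6, 1, 117, 1, 1, 1, 1]),
  ([0, 1, 1, 1, 4, 5, 6, 6, 8, 1, 1, 11], [1, 1, 1, 1, 1, 117, 6, 119, 1, 1], [1, 6, 6, 6, 1, 1, 1, 1, 1, 1]),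
  ([0, 1, 1, 1, 4, 5, 6, 6, 1, 9, 10, 1], [112, 1, 114, 1, 1, 1, 6, 1, 1, 1], [1, 6, 6, 6, 1, 1, 1, 1, 1, 1]),
  ([0, 1, 1, 1, 4, 5, 6, 6, 1, 9, 1, 11], [112, 1, 1, 1, 1, 1, 6, 1, 1, 1], [1, 6, 6, 6, 1, 1, 1, 1, 1, 121]),
  ([0, 1, 1, 1, 4, 5, 6, 6, 1, 1, 10, 11], [1, 1, 114, 1, 1, 1, 6, 1, 1, 1], [1, 6, 6, 6, 1, 1, 1, 1, 1, 1]),
  ([0, 1, 1, 1, 1, 5, 6, 6, 8, 9, 10, 1], [112, 1, 114, 1, 1, 1, 6, 1, 1, 1], [1, 6, 6, 6, 1, 117, 1, 1, 1, 1]),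
  ([0, 1, 1, 1, 1, 5, 6, 6, 8, 9, 1, 11], [112, 1, 1, 1, 1, 1, 6, 1, 1, 1], [1, 6, 6, 6, 1, 1, 1, 1, 1, 121]),
  ([0, 1, 1, 1, 1, 5, 6, 6, 8, 1, 10, 11], [1, 1, 114, 1, 1, 1, 6, 1, 1, 1], [1, 6, 6, 6, 1, 117, 1, 1, 1, 1]),
  ([0, 1, 1, 1, 1, 5, 6, 6, 1, 9, 10, 11], [112, 1, 114, 1, 1, 1, 6, 1, 1, 1], [1, 6, 6, 6, 1, 1, 1, 1, 1, 121])]

def d9 : List (List ℕ × List ℕ × List ℕ) := [
  ([0, 1, 2, 3, 4, 5, 6, 7, 8, 2, 5, 2], [2, 2, 5, 2, 2, 117, 118, 119, 2, 2], [2, 5, 114, 5, 116, 5, 5, 5, 2, 2]),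
  ([0, 1, 2, 3, 4, 5, 6, 7, 8, 4, 5, 4], [4, 4, 5, 115, 4, 4, 118, 4, 4, 4], [4, 5, 114, 5, 116, 5, 5, 5, 4, 4]),
  ([0, 1, 2, 3, 4, 5, 6, 7, 1, 0, 1, 11], [0, 113, 1, 1, 1, 1, 118, 1, 1, 1], [112, 113, 0, 0, 1, 1, 1, 0, 0, 0]),
  ([0, 1, 2, 3, 4, 5, 6, 7, 3, 0, 3, 11], [0, 3, 3, 3, 3, 3, 118, 3, 3, 121], [112, 113, 0, 0, 3, 3, 3, 0, 0, 0]),
  ([0, 1, 2, 3, 4, 5, 6, 7, 6, 2, 10, 2], [2, 2, 114, 2, 2, 6, 6, 6, 2, 2], [2, 6, 114, 6, 116, 6, 6, 6, 2, 2]),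
  ([0, 1, 2, 3, 4, 5, 6, 7, 7, 2, 10, 2], [2, 2, 114, 2, 2, 7, 7, 7, 2, 2], [2, 113, 7, 7, 116, 7, 7, 7, 2, 2]),
  ([0, 1, 2, 3, 4, 5, 6, 1, 1, 2, 10, 11], [2, 2, 114, 2, 2, 1, 1, 1, 1, 1], [2, 113, 1, 1, 1, 1, 1, 1, 2, 2]),
  ([0, 1, 2, 3, 4, 5, 6, 4, 8, 9, 3, 4], [112, 3, 3, 3, 3, 4, 4, 4, 4, 4], [4, 113, 4, 4, 3, 3, 3, 4, 4, 4]),
  ([0, 1, 2, 3, 4, 5, 6, 4, 4, 9, 10, 9], [9, 9, 114, 115, 9, 4, 4, 4, 9, 9], [4, 113, 4, 4, 116, 4, 4, 4, 4, 9]),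
  ([0, 1, 2, 3, 4, 5, 6, 6, 8, 9, 1, 1], [112, 113, 1, 1, 1, 117, 6, 119, 1, 1], [112, 6, 6, 6, 1, 1, 1, 1, 1, 1]),
  ([0, 1, 2, 3, 4, 5, 6, 6, 8, 9, 2, 2], [112, 113, 2, 2, 2, 117, 6, 119, 2, 2], [2, 6, 6, 6, 116, 2, 2, 2, 2, 2]),
  ([0, 1, 2, 3, 4, 5, 6, 6, 8, 9, 2, 9], [9, 9, 2, 2, 9, 117, 6, 119, 9, 9], [2, 6, 6, 6, 116, 2, 2, 2, 2, 9]),
  ([0, 1, 2, 3, 4, 5, 6, 6, 8, 9, 3, 3], [112, 3, 3, 3, 3, 117, 6, 119, 3, 3], [112, 6, 6, 6, 3, 3, 3, 3, 3, 3]),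
  ([0, 1, 2, 3, 4, 5, 6, 6, 8, 9, 3, 4], [112, 3, 3, 3, 3, 4, 6, 4, 4, 4], [4, 6, 6, 6, 3, 3, 3, 119, 4, 4]),
  ([0, 1, 2, 3, 4, 5, 6, 6, 8, 9, 3, 6], [112, 3, 3, 3, 3, 117, 6, 6, 6, 6], [112, 6, 6, 6, 3, 3, 3, 6, 6, 6]),
  ([0, 1, 2, 3, 4, 5, 6, 6, 8, 9, 4, 4], [112, 113, 4, 4, 4, 4, 6, 4, 4, 4], [4, 6, 6, 6, 116, 4, 4, 4, 4, 4]),
  ([0, 1, 2, 3, 4, 5, 6, 6, 8, 9, 8, 1], [112, 113, 8, 8, 8, 8, 6, 8, 8, 1], [112, 6, 6, 6, 1, 8, 1, 1, 1, 1]),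
  ([0, 1, 2, 3, 4, 5, 6, 6, 8, 9, 8, 8], [112, 113, 8, 8, 8, 8, 6, 8, 8, 8], [112, 6, 6, 6, 116, 8, 8, 8, 8, 8]),
  ([0, 1, 2, 3, 4, 5, 6, 6, 8, 9, 9, 9], [9, 9, 9, 9, 9, 117, 6, 119, 9, 9], [112, 6, 6, 6, 116, 9, 9, 9, 9, 9]),
  ([0, 1, 2, 3, 4, 5, 6, 6, 8, 1, 10, 1], [1, 1, 114, 115, 1, 117, 6, 119, 1, 1], [112, 6, 6, 6, 1, 117, 1, 1, 1, 1]),
  ([0, 1, 2, 3, 4, 5, 6, 6, 8, 1, 1, 11], [1, 1, 1, 1, 1, 117, 6, 119, 1, 1], [112, 6, 6, 6, 1, 1, 1, 1, 1, 1]),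
  ([0, 1, 2, 3, 4, 5, 6, 6, 8, 2, 10, 2], [2, 2, 114, 2, 2, 117, 6, 119, 2, 2], [2, 6, 6, 6, 116, 117, 118, 119, 2, 2]),
  ([0, 1, 2, 3, 4, 5, 6, 6, 8, 2, 2, 11], [2, 2, 2, 2, 2, 117, 6, 119, 120, 121], [2, 6, 6, 6, 116, 2, 2, 2, 2, 2]),
  ([0, 1, 2, 3, 4, 5, 6, 6, 8, 3, 10, 3], [3, 3, 114, 115, 3, 117, 6, 119, 3, 3], [112, 6, 6, 6, 3, 117, 3, 3, 3, 3]),
  ([0, 1, 2, 3, 4, 5, 6, 6, 8, 3, 3, 11], [3, 3, 3, 3, 3, 117, 6, 119, 120, 121], [112, 6, 6, 6, 3, 3, 3, 3, 3, 3]),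
  ([0, 1, 2, 3, 4, 5, 6, 6, 8, 3, 8, 11], [3, 3, 8, 8, 8, 8, 6, 8, 8, 121], [112, 6, 6, 6, 3, 8, 3, 3, 3, 3]),
  ([0, 1, 2, 3, 4, 5, 6, 6, 8, 4, 10, 4], [4, 4, 114, 115, 4, 4, 6, 4, 4, 4], [4, 6, 6, 6, 116, 117, 118, 119, 4, 4]),
  ([0, 1, 2, 3, 4, 5, 6, 6, 8, 4, 4, 11], [4, 4, 4, 4, 4, 4, 6, 4, 4, 121], [4, 6, 6, 6, 116, 4, 4, 4, 4, 4]),
  ([0, 1, 2, 3, 4, 5, 6, 6, 8, 8, 10, 8], [8, 8, 114, 115, 8, 8, 6, 8, 8, 8], [112, 6, 6, 6, 116, 8, 8, 8, 8, 8]),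
  ([0, 1, 2, 3, 4, 5, 6, 6, 8, 8, 8, 11], [8, 8, 8, 8, 8, 8, 6, 8, 8, 121], [112, 6, 6, 6, 116, 8, 8, 8, 8, 8]),
  ([0, 1, 2, 3, 4, 5, 6, 6, 1, 9, 10, 1], [112, 113, 114, 115, 116, 1, 6, 1, 1, 1], [112, 6, 6, 6, 1, 1, 1, 1, 1, 1]),
  ([0, 1, 2, 3, 4, 5, 6, 6, 1, 9, 1, 11], [112, 113, 1, 1, 1, 1, 6, 1, 1, 1], [112, 6, 6, 6, 1, 1, 1, 119, 120, 121]),
  ([0, 1, 2, 3, 4, 5, 6, 6, 1, 1, 10, 11], [1, 1, 114, 115, 1, 1, 6, 1, 1, 1], [112, 6, 6, 6, 1, 1, 1, 1, 1, 1]),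
  ([0, 1, 2, 3, 4, 5, 6, 6, 1, 2, 10, 11], [2, 2, 114, 2, 2, 1, 6, 1, 1, 1], [2, 6, 6, 6, 1, 1, 1, 119, 2, 2]),
  ([0, 1, 2, 3, 4, 5, 6, 6, 2, 9, 10, 2], [112, 113, 114, 2, 2, 2, 6, 2, 2, 2], [2, 6, 6, 6, 116, 2, 2, 2, 2, 2]),
  ([0, 1, 2, 3, 4, 5, 6, 6, 2, 9, 2, 11], [112, 113, 2, 2, 2, 2, 6, 2, 2, 121], [2, 6, 6, 6, 116, 2, 2, 2, 2, 121]),
  ([0, 1, 2, 3, 4, 5, 6, 6, 2, 2, 10, 11], [2, 2, 114, 2, 2, 2, 6, 2, 2, 121], [2, 6, 6, 6, 116, 2, 2, 2, 2, 2]),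
  ([0, 1, 2, 3, 4, 5, 6, 6, 3, 9, 10, 3], [112, 3, 114, 115, 3, 3, 6, 3, 3, 3], [112, 6, 6, 6, 3, 3, 3, 3, 3, 3]),
  ([0, 1, 2, 3, 4, 5, 6, 6, 3, 9, 3, 11], [112, 3, 3, 3, 3, 3, 6, 3, 3, 121], [112, 6, 6, 6, 3, 3, 3, 119, 120, 121]),
  ([0, 1, 2, 3, 4, 5, 6, 6, 3, 3, 10, 11], [3, 3, 114, 115, 3, 3, 6, 3, 3, 121], [112, 6, 6, 6, 3, 3, 3, 3, 3, 3]),
  ([0, 1, 2, 3, 4, 5, 6, 6, 4, 9, 10, 4], [112, 113, 114, 115, 116, 4, 6, 4, 4, 4], [4, 6, 6, 6, 116, 4, 4, 4, 4, 4]),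
  ([0, 1, 2, 3, 4, 5, 6, 6, 4, 9, 10, 9], [9, 9, 114, 115, 9, 4, 6, 119, 9, 9], [4, 6, 6, 6, 116, 4, 4, 4, 4, 9]),
  ([0, 1, 2, 3, 4, 5, 6, 6, 4, 9, 4, 11], [112, 113, 4, 4, 4, 4, 6, 4, 4, 121], [4, 6, 6, 6, 116, 4, 4, 4, 4, 121]),
  ([0, 1, 2, 3, 4, 5, 6, 6, 4, 4, 10, 11], [4, 4, 114, 115, 4, 4, 6, 4, 4, 121], [4, 6, 6, 6, 116, 4, 4, 4, 4, 4]),
  ([0, 1, 2, 3, 4, 5, 6, 6, 6, 9, 10, 2], [112, 113, 114, 2, 2, 6, 6, 6, 2, 2], [2, 6, 6, 6, 116, 6, 6, 6, 2, 2]),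
  ([0, 1, 2, 3, 4, 5, 6, 6, 6, 9, 10, 9], [9, 9, 114, 115, 9, 6, 6, 6, 9, 9], [112, 6, 6, 6, 116, 6, 6, 6, 120, 9]),
  ([0, 1, 2, 3, 4, 5, 6, 6, 6, 2, 10, 11], [2, 2, 114, 2, 2, 6, 6, 6, 120, 121], [2, 6, 6, 6, 116, 6, 6, 6, 2, 2]),
  ([0, 1, 2, 3, 4, 5, 0, 0, 8, 9, 10, 1], [0, 0, 114, 115, 0, 117, 0, 0, 0, 1], [112, 0, 0, 0, 1, 117, 1, 1, 1, 1]),
  ([0, 1, 2, 3, 4, 5, 0, 0, 8, 9, 2, 11], [0, 0, 2, 2, 0, 117, 0, 0, 0, 121], [2, 0, 0, 0, 116, 2, 2, 2, 2, 121]),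
  ([0, 1, 2, 3, 4, 5, 0, 0, 4, 9, 10, 11], [0, 0, 114, 115, 0, 4, 0, 0, 0, 121], [4, 0, 0, 0, 116, 4, 4, 4, 4, 121]),
  ([0, 1, 2, 3, 4, 5, 1, 7, 1, 2, 10, 11], [2, 2, 114, 2, 2, 1, 1, 1, 1, 1], [2, 1, 114, 1, 1, 1, 1, 1, 2, 2]),
  ([0, 1, 2, 3, 4, 5, 1, 1, 8, 2, 10, 11], [2, 2, 114, 2, 2, 117, 1, 1, 1, 1], [2, 1, 1, 1, 1, 117, 1, 1, 2, 2]),
  ([0, 1, 2, 3, 4, 5, 4, 7, 8, 9, 3, 4], [112, 3, 3, 3, 3, 4, 4, 4, 4, 4], [4, 4, 114, 4, 3, 3, 3, 4, 4, 4]),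
  ([0, 1, 2, 3, 4, 5, 4, 7, 4, 9, 10, 9], [9, 9, 114, 115, 9, 4, 4, 4, 9, 9], [4, 4, 114, 4, 116, 4, 4, 4, 4, 9]),
  ([0, 1, 2, 3, 4, 5, 4, 4, 8, 9, 10, 9], [9, 9, 114, 115, 9, 4, 4, 4, 9, 9], [4, 4, 4, 4, 116, 117, 118, 4, 4, 9]),
  ([0, 1, 2, 3, 4, 5, 4, 4, 8, 9, 1, 11], [112, 113, 1, 1, 1, 4, 4, 4, 1, 1], [4, 4, 4, 4, 1, 1, 1, 4, 4, 121]),
  ([0, 1, 2, 3, 4, 5, 4, 4, 8, 9, 3, 11], [112, 3, 3, 3, 3, 4, 4, 4, 120, 121], [4, 4, 4, 4, 3, 3, 3, 4, 4, 121]),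
  ([0, 1, 2, 3, 4, 5, 5, 5, 8, 9, 10, 1], [112, 113, 5, 5, 5, 117, 5, 5, 5, 1], [112, 5, 5, 5, 1, 117, 1, 1, 1, 1]),
  ([0, 1, 2, 3, 4, 5, 5, 5, 8, 3, 10, 11], [3, 3, 5, 5, 5, 117, 5, 5, 5, 121], [112, 5, 5, 5, 3, 117, 3, 3, 3, 3]),
  ([0, 1, 2, 3, 4, 5, 5, 5, 4, 9, 10, 11], [112, 113, 5, 5, 5, 4, 5, 5, 5, 121], [4, 5, 5, 5, 116, 4, 4, 4, 4, 121]),
  ([0, 1, 2, 3, 4, 0, 6, 7, 8, 9, 0, 4], [0, 0, 0, 0, 0, 4, 118, 4, 4, 4], [4, 0, 0, 0, 116, 0, 0, 0, 4, 4]),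
  ([0, 1, 2, 3, 4, 0, 6, 7, 1, 9, 10, 1], [0, 0, 0, 0, 0, 1, 118, 1, 1, 1], [112, 0, 0, 0, 1, 1, 1, 1, 1, 1]),
  ([0, 1, 2, 3, 4, 0, 6, 7, 1, 0, 10, 11], [0, 0, 0, 0, 0, 1, 118, 1, 1, 1], [112, 0, 0, 0, 1, 1, 1, 0, 0, 0]),
  ([0, 1, 2, 3, 4, 0, 6, 7, 4, 9, 10, 4], [0, 0, 0, 0, 0, 4, 118, 4, 4, 4], [4, 0, 0, 0, 116, 4, 4, 4, 4, 4]),
  ([0, 1, 2, 3, 4, 0, 6, 0, 8, 9, 10, 1], [0, 0, 0, 0, 0, 117, 0, 0, 0, 1], [112, 0, 0, 0, 1, 117, 1, 1, 1, 1]),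
  ([0, 1, 2, 3, 4, 0, 6, 0, 4, 9, 10, 11], [0, 0, 0, 0, 0, 4, 0, 0, 0, 121], [4, 0, 0, 0, 116, 4, 4, 4, 4, 121]),
  ([0, 1, 2, 3, 4, 0, 0, 7, 8, 9, 10, 1], [0, 0, 0, 0, 0, 117, 0, 0, 0, 1], [112, 0, 0, 0, 1, 117, 1, 1, 1, 1]),
  ([0, 1, 2, 3, 4, 0, 0, 7, 4, 9, 10, 11], [0, 0, 0, 0, 0, 4, 0, 0, 0, 121], [4, 0, 0, 0, 116, 4, 4, 4, 4, 121]),
  ([0, 1, 2, 3, 4, 2, 6, 7, 8, 9, 2, 9], [9, 9, 2, 2, 9, 117, 118, 119, 9, 9], [2, 2, 114, 2, 116, 2, 2, 2, 2, 9]),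
  ([0, 1, 2, 3, 4, 2, 6, 7, 1, 2, 10, 11], [2, 2, 2, 2, 2, 1, 118, 1, 1, 1], [2, 2, 114, 2, 1, 1, 1, 2, 2, 2]),
  ([0, 1, 2, 3, 4, 2, 6, 0, 8, 9, 2, 11], [0, 0, 2, 2, 0, 117, 0, 0, 0, 121], [2, 2, 0, 2, 116, 2, 2, 2, 2, 121]),
  ([0, 1, 2, 3, 4, 3, 6, 7, 8, 9, 3, 4], [112, 3, 3, 3, 3, 4, 118, 4, 4, 4], [4, 3, 114, 3, 3, 3, 3, 3, 4, 4]),
  ([0, 1, 2, 3, 1, 5, 6, 6, 8, 9, 10, 1], [112, 113, 114, 115, 116, 1, 6, 1, 1, 1], [1, 6, 6, 6, 1, 117, 1, 1, 1, 1]),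
  ([0, 1, 2, 3, 1, 5, 6, 6, 8, 9, 1, 11], [112, 113, 1, 1, 1, 1, 6, 1, 1, 1], [1, 6, 6, 6, 1, 1, 1, 1, 1, 121]),
  ([0, 1, 2, 3, 1, 5, 6, 6, 8, 1, 10, 11], [1, 1, 114, 115, 1, 1, 6, 1, 1, 1], [1, 6, 6, 6, 1, 117, 1, 1, 1, 1]),
  ([0, 1, 2, 3, 1, 5, 6, 6, 1, 9, 10, 11], [112, 113, 114, 115, 116, 1, 6, 1, 1, 1], [1, 6, 6, 6, 1, 1, 1, 1, 1, 121]),
  ([0, 1, 2, 3, 1, 0, 6, 7, 8, 9, 10, 1], [0, 0, 0, 0, 0, 1, 118, 1, 1, 1], [1, 0, 0, 0, 1, 117, 1, 1, 1, 1]),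
  ([0, 1, 2, 3, 1, 0, 6, 7, 1, 9, 10, 11], [0, 0, 0, 0, 0, 1, 118, 1, 1, 1], [1, 0, 0, 0, 1, 1, 1, 1, 1, 121]),
  ([0, 1, 2, 3, 2, 5, 6, 7, 8, 9, 5, 2], [112, 113, 5, 2, 2, 2, 118, 2, 2, 2], [2, 5, 114, 5, 116, 5, 5, 5, 2, 2]),
  ([0, 1, 2, 3, 2, 5, 6, 7, 8, 2, 5, 11], [2, 2, 5, 2, 2, 2, 118, 2, 2, 121], [2, 5, 114, 5, 116, 5, 5, 5, 2, 2]),
  ([0, 1, 2, 3, 2, 5, 6, 6, 8, 9, 10, 1], [112, 113, 114, 2, 2, 2, 6, 2, 2, 1], [2, 6, 6, 6, 1, 117, 1, 1, 1, 1]),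
  ([0, 1, 2, 3, 2, 5, 6, 6, 8, 9, 10, 2], [112, 113, 114, 2, 2, 2, 6, 2, 2, 2], [2, 6, 6, 6, 116, 117, 118, 119, 2, 2]),
  ([0, 1, 2, 3, 2, 5, 6, 6, 8, 9, 2, 11], [112, 113, 2, 2, 2, 2, 6, 2, 2, 121], [2, 6, 6, 6, 116, 2, 2, 2, 2, 121]),
  ([0, 1, 2, 3, 2, 5, 6, 6, 8, 2, 10, 11], [2, 2, 114, 2, 2, 2, 6, 2, 2, 121], [2, 6, 6, 6, 116, 117, 118, 119, 2, 2]),
  ([0, 1, 2, 3, 2, 5, 6, 6, 8, 3, 10, 11], [3, 3, 114, 2, 2, 2, 6, 2, 2, 121], [2, 6, 6, 6, 3, 117, 3, 3, 3, 3]),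
  ([0, 1, 2, 3, 2, 5, 6, 6, 2, 9, 10, 11], [112, 113, 114, 2, 2, 2, 6, 2, 2, 121], [2, 6, 6, 6, 116, 2, 2, 2, 2, 121]),
  ([0, 1, 2, 3, 3, 5, 6, 6, 8, 9, 10, 3], [112, 3, 114, 115, 3, 3, 6, 3, 3, 3], [3, 6, 6, 6, 3, 117, 3, 3, 3, 3]),
  ([0, 1, 2, 3, 3, 5, 6, 6, 8, 9, 3, 11], [112, 3, 3, 3, 3, 3, 6, 3, 3, 121], [3, 6, 6, 6, 3, 3, 3, 3, 3, 121]),
  ([0, 1, 2, 3, 3, 5, 6, 6, 8, 3, 10, 11], [3, 3, 114, 115, 3, 3, 6, 3, 3, 121], [3, 6, 6, 6, 3, 117, 3, 3, 3, 3]),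
  ([0, 1, 2, 3, 3, 5, 6, 6, 3, 9, 10, 11], [112, 3, 114, 115, 3, 3, 6, 3, 3, 121], [3, 6, 6, 6, 3, 3, 3, 3, 3, 121]),
  ([0, 1, 2, 0, 4, 5, 6, 7, 8, 9, 0, 4], [0, 0, 0, 0, 0, 4, 118, 4, 4, 4], [4, 113, 0, 0, 0, 0, 0, 0, 4, 4]),
  ([0, 1, 2, 0, 4, 5, 6, 7, 8, 0, 8, 11], [0, 0, 8, 8, 8, 8, 118, 8, 8, 121], [112, 113, 0, 0, 0, 8, 0, 0, 0, 0]),
  ([0, 1, 2, 0, 4, 5, 5, 7, 8, 0, 10, 11], [0, 0, 5, 5, 5, 117, 5, 5, 5, 121], [112, 5, 0, 0, 0, 117, 0, 0, 0, 0]),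
  ([0, 1, 2, 0, 4, 0, 6, 7, 8, 9, 10, 4], [0, 0, 0, 0, 0, 4, 118, 4, 4, 4], [4, 0, 0, 0, 0, 117, 0, 0, 4, 4]),
  ([0, 1, 2, 0, 2, 5, 6, 7, 8, 9, 10, 2], [0, 0, 114, 2, 2, 2, 118, 2, 2, 2], [2, 113, 0, 0, 0, 117, 0, 0, 2, 2]),
  ([0, 1, 2, 0, 2, 5, 6, 7, 8, 0, 10, 11], [0, 0, 114, 2, 2, 2, 118, 2, 2, 121], [2, 113, 0, 0, 0, 117, 0, 0, 0, 0]),
  ([0, 1, 2, 1, 4, 5, 6, 7, 8, 0, 1, 11], [0, 1, 1, 1, 1, 117, 118, 119, 1, 1], [112, 113, 0, 0, 1, 1, 1, 0, 0, 0]),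
  ([0, 1, 2, 1, 4, 5, 6, 7, 1, 0, 10, 11], [0, 1, 114, 115, 1, 1, 118, 1, 1, 1], [112, 113, 0, 0, 1, 1, 1, 0, 0, 0]),
  ([0, 1, 2, 1, 4, 5, 6, 4, 8, 9, 1, 11], [112, 1, 1, 1, 1, 4, 4, 4, 1, 1], [4, 113, 4, 4, 1, 1, 1, 4, 4, 121]),
  ([0, 1, 2, 1, 4, 5, 6, 4, 4, 9, 10, 11], [112, 1, 114, 115, 1, 4, 4, 4, 1, 1], [4, 113, 4, 4, 1, 4, 4, 4, 4, 121]),
  ([0, 1, 2, 1, 4, 5, 6, 6, 8, 9, 10, 1], [112, 1, 114, 115, 1, 117, 6, 119, 1, 1], [112, 6, 6, 6, 1, 117, 1, 1, 1, 1]),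
  ([0, 1, 2, 1, 4, 5, 6, 6, 8, 9, 1, 11], [112, 1, 1, 1, 1, 117, 6, 119, 1, 1], [112, 6, 6, 6, 1, 1, 1, 119, 120, 121]),
  ([0, 1, 2, 1, 4, 5, 6, 6, 8, 9, 2, 11], [112, 1, 2, 2, 1, 117, 6, 119, 1, 1], [2, 6, 6, 6, 1, 2, 2, 2, 2, 121]),
  ([0, 1, 2, 1, 4, 5, 6, 6, 8, 1, 10, 11], [1, 1, 114, 115, 1, 117, 6, 119, 1, 1], [112, 6, 6, 6, 1, 117, 1, 1, 1, 1]),
  ([0, 1, 2, 1, 4, 5, 6, 6, 1, 9, 10, 11], [112, 1, 114, 115, 1, 1, 6, 1, 1, 1], [112, 6, 6, 6, 1, 1, 1, 119, 120, 121]),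
  ([0, 1, 2, 1, 4, 5, 6, 6, 4, 9, 10, 11], [112, 1, 114, 115, 1, 4, 6, 119, 1, 1], [4, 6, 6, 6, 1, 4, 4, 4, 4, 121]),
  ([0, 1, 2, 1, 4, 5, 6, 6, 6, 9, 10, 11], [112, 1, 114, 115, 1, 6, 6, 6, 1, 1], [112, 6, 6, 6, 1, 6, 6, 6, 120, 121]),
  ([0, 1, 2, 1, 4, 5, 4, 7, 8, 9, 1, 11], [112, 1, 1, 1, 1, 4, 4, 4, 1, 1], [4, 4, 114, 4, 1, 1, 1, 4, 4, 121]),
  ([0, 1, 2, 1, 4, 5, 4, 7, 4, 9, 10, 11], [112, 1, 114, 115, 1, 4, 4, 4, 1, 1], [4, 4, 114, 4, 1, 4, 4, 4, 4, 121]),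
  ([0, 1, 2, 1, 4, 5, 4, 4, 8, 9, 10, 11], [112, 1, 114, 115, 1, 4, 4, 4, 1, 1], [4, 4, 4, 4, 1, 117, 118, 4, 4, 121]),
  ([0, 1, 2, 1, 4, 2, 6, 7, 8, 9, 2, 11], [112, 1, 2, 2, 1, 117, 118, 119, 1, 1], [2, 2, 114, 2, 1, 2, 2, 2, 2, 121]),
  ([0, 1, 2, 1, 4, 2, 6, 7, 1, 9, 10, 11], [112, 1, 2, 2, 1, 1, 118, 1, 1, 1], [2, 2, 114, 2, 1, 1, 1, 2, 2, 121]),
  ([0, 1, 2, 1, 1, 5, 6, 6, 8, 9, 10, 11], [112, 1, 114, 115, 1, 1, 6, 1, 1, 1], [1, 6, 6, 6, 1, 117, 1, 1, 1, 121]),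
  ([0, 1, 2, 2, 4, 5, 6, 6, 8, 9, 10, 2], [112, 2, 114, 2, 2, 117, 6, 119, 2, 2], [2, 6, 6, 6, 2, 117, 2, 2, 2, 2]),
  ([0, 1, 2, 2, 4, 5, 6, 6, 8, 9, 2, 11], [112, 2, 2, 2, 2, 117, 6, 119, 120, 121], [2, 6, 6, 6, 2, 2, 2, 2, 2, 121]),
  ([0, 1, 2, 2, 4, 5, 6, 6, 8, 2, 10, 11], [2, 2, 114, 2, 2, 117, 6, 119, 120, 121], [2, 6, 6, 6, 2, 117, 2, 2, 2, 2]),
  ([0, 1, 2, 2, 4, 5, 6, 6, 2, 9, 10, 11], [112, 2, 114, 2, 2, 2, 6, 2, 2, 121], [2, 6, 6, 6, 2, 2, 2, 2, 2, 121]),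
  ([0, 1, 2, 2, 2, 5, 6, 6, 8, 9, 10, 11], [112, 2, 114, 2, 2, 2, 6, 2, 2, 121], [2, 6, 6, 6, 2, 117, 2, 2, 2, 121]),
  ([0, 1, 0, 3, 4, 5, 6, 7, 1, 0, 10, 11], [0, 0, 114, 0, 0, 1, 118, 1, 1, 1], [0, 113, 0, 0, 1, 1, 1, 0, 0, 0]),
  ([0, 1, 0, 3, 4, 0, 6, 7, 1, 9, 10, 11], [0, 0, 0, 0, 0, 1, 118, 1, 1, 1], [0, 0, 0, 0, 1, 1, 1, 0, 0, 121]),
  ([0, 1, 1, 3, 4, 5, 6, 6, 8, 9, 10, 1], [112, 113, 114, 1, 1, 117, 6, 119, 1, 1], [1, 6, 6, 6, 1, 117, 1, 1, 1, 1]),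
  ([0, 1, 1, 3, 4, 5, 6, 6, 8, 9, 1, 11], [112, 113, 1, 1, 1, 117, 6, 119, 1, 1], [1, 6, 6, 6, 1, 1, 1, 1, 1, 121]),
  ([0, 1, 1, 3, 4, 5, 6, 6, 8, 1, 10, 11], [1, 1, 114, 1, 1, 117, 6, 119, 1, 1], [1, 6, 6, 6, 1, 117, 1, 1, 1, 1]),
  ([0, 1, 1, 3, 4, 5, 6, 6, 1, 9, 10, 11], [112, 113, 114, 1, 1, 1, 6, 1, 1, 1], [1, 6, 6, 6, 1, 1, 1, 1, 1, 121]),
  ([0, 1, 1, 3, 1, 5, 6, 6, 8, 9, 10, 11], [112, 113, 114, 1, 1, 1, 6, 1, 1, 1], [1, 6, 6, 6, 1, 117, 1, 1, 1, 121]),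
  ([0, 1, 1, 1, 4, 5, 6, 6, 8, 9, 10, 11], [112, 1, 114, 1, 1, 117, 6, 119, 1, 1], [1, 6, 6, 6, 1, 117, 1, 1, 1, 121])]

theorem a7_ge : 56 ≤ a T F 7 := lower d7 (by decide +kernel) (by decide +kernel)

theorem a9_ge : 126 ≤ a T F 9 := lower d9 (by decide +kernel) (by decide +kernel)

/-- **Main result.** There are two semilabelled binary trees of size `12` for which the sequence
`a_k` is not log-concave at `k = 8`; so the answer to Q2 is negative. -/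
theorem result :
    (∃ T F : SBTree 12, a T F 8 ^ 2 < a T F 7 * a T F 9) ∧
    ¬ ∀ (n : ℕ) (T F : SBTree n) (k : ℕ), 1 < k → k < n →
      a T F (k - 1) * a T F (k + 1) ≤ a T F k ^ 2 := by
  have h : a T F 8 ^ 2 < a T F 7 * a T F 9 := by
    calc a T F 8 ^ 2 ≤ 83 ^ 2 := Nat.pow_le_pow_left a8_le 2
      _ < 56 * 126 := by norm_num
      _ ≤ a T F 7 * a T F 9 := Nat.mul_le_mul a7_ge a9_ge
  refine ⟨⟨T, F, h⟩, fun hall => ?_⟩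
  have := hall 12 T F 8 (by norm_num) (by norm_num)
  have h' : a T F 7 * a T F 9 ≤ a T F 8 ^ 2 := this
  omega

end Pool.Agent.Results.MP_8b9f13_co.NotLogConcave
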